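import Mathlib
import Pool.Agent.helper35.DR.SpecR

set_option autoImplicit false

namespace Pool.Agent.DR

open Pool.Agent.helper58.DC Pool.Agent.DI

/-- Elements of the join of commuting subgroups. -/
theorem RYC_mem {Γ : Type} [Group Γ] (R N' : Subgroup Γ) (hc : ∀ x ∈ R, ∀ y ∈ N', x * y = y * x)
    (z : Γ) : z ∈ R ⊔ N' ↔ ∃ x ∈ R, ∃ y ∈ N', x * y = z := by
  constructor
  · intro hz
    let S : Subgroup Γ :=
      { carrier := {z | ∃ x ∈ R, ∃ y ∈ N', x * y = z}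
        one_mem' := ⟨1, one_mem _, 1, one_mem _, by simp⟩
        mul_mem' := by
          rintro _ _ ⟨x, hx, y, hy, rfl⟩ ⟨x', hx', y', hy', rfl⟩
          refine ⟨x * x', mul_mem hx hx', y * y', mul_mem hy hy', ?_⟩
          rw [mul_assoc, mul_assoc, ← mul_assoc x' y y', hc x' hx' y hy, mul_assoc]
        inv_mem' := by
          rintro _ ⟨x, hx, y, hy, rfl⟩
          refine ⟨x⁻¹, inv_mem hx, y⁻¹, inv_mem hy, ?_⟩
          rw [mul_inv_rev, hc _ (inv_mem hx) _ (inv_mem hy)] }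
    have h1 : R ⊔ N' ≤ S :=
      sup_le (fun x hx => ⟨x, hx, 1, one_mem _, by simp⟩)
        (fun y hy => ⟨1, one_mem _, y, hy, by simp⟩)
    exact h1 hz
  · rintro ⟨x, hx, y, hy, rfl⟩
    exact mul_mem (Subgroup.mem_sup_left hx) (Subgroup.mem_sup_right hy)

/-- Order of the join of commuting subgroups with trivial intersection. -/
theorem RYC_card {Γ : Type} [Group Γ] [Finite Γ] (R N' : Subgroup Γ)
    (hc : ∀ x ∈ R, ∀ y ∈ N', x * y = y * x) (hd : R ⊓ N' = ⊥) :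
    Nat.card (R ⊔ N' : Subgroup Γ) = Nat.card R * Nat.card N' := by
  rw [← Nat.card_prod]
  symm
  refine Nat.card_eq_of_bijective (fun z : R × N' => (⟨(z.1 : Γ) * (z.2 : Γ),
    mul_mem (Subgroup.mem_sup_left z.1.2) (Subgroup.mem_sup_right z.2.2)⟩ :
      (R ⊔ N' : Subgroup Γ))) ⟨?_, ?_⟩
  · rintro ⟨⟨x, hx⟩, ⟨y, hy⟩⟩ ⟨⟨x', hx'⟩, ⟨y', hy'⟩⟩ h
    have h1 : x * y = x' * y' := congrArg Subtype.val h
    have h2 : x'⁻¹ * x = y' * y⁻¹ := by
      rw [inv_mul_eq_iff_eq_mul, ← mul_assoc, ← h1, mul_inv_cancel_right]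
    have h3 : x'⁻¹ * x ∈ R ⊓ N' :=
      Subgroup.mem_inf.2 ⟨mul_mem (inv_mem hx') hx, by rw [h2]; exact mul_mem hy' (inv_mem hy)⟩
    rw [hd, Subgroup.mem_bot] at h3
    have h4 : x = x' := by
      have := inv_mul_eq_one.1 h3
      exact this.symm
    subst h4
    have h5 : y = y' := mul_left_cancel h1
    subst h5
    rfl
  · rintro ⟨z, hz⟩
    obtain ⟨x, hx, y, hy, h⟩ := (RYC_mem R N' hc z).1 hz
    exact ⟨(⟨x, hx⟩, ⟨y, hy⟩), Subtype.ext h⟩

theorem RYC_funMap {Γ : Type} [Group Γ] (n g : Γ) (φ : Γ → ℂ) :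
    funMap (MulAut.conj n) φ g = φ (n⁻¹ * g * n) := by
  simp [funMap, mul_assoc]

/-- Data for the comparison of `φ` on `R ⊔ N'` with the product of `l` and `θ`. -/
structure RYC_prod {Γ : Type} [Group Γ] (R N' : Subgroup Γ) (l : R → ℂˣ) (θ φ : Γ → ℂ) : Prop where
  lm : ∀ x y, l (x * y) = l x * l y
  th : θ ∈ IrrOn N'
  ph : φ ∈ IrrOn (R ⊔ N')
  eq : ∀ (x : R), ∀ y ∈ N', φ (x * y) = l x * θ y

theorem RYC_prod.l_one {Γ : Type} [Group Γ] {R N' : Subgroup Γ} {l : R → ℂˣ} {θ φ : Γ → ℂ}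
    (h : RYC_prod R N' l θ φ) : l 1 = 1 := by
  have := h.lm 1 1
  rw [mul_one] at this
  exact (mul_eq_left.1 this.symm)

theorem RYC_prod.on {Γ : Type} [Group Γ] {R N' : Subgroup Γ} {l : R → ℂˣ} {θ φ : Γ → ℂ}
    (h : RYC_prod R N' l θ φ) (y : Γ) (hy : y ∈ N') : φ y = θ y := by
  have h1 := h.eq 1 y hy
  rw [h.l_one] at h1
  simpa using h1

/-- `φ` and `θ` agree on `G₁`. -/
theorem RYC_prod.on' {Γ : Type} [Group Γ] {R N' G₁ : Subgroup Γ} {l : R → ℂˣ} {θ φ : Γ → ℂ}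
    (h : RYC_prod R N' l θ φ) (hc : ∀ x ∈ R, ∀ y ∈ N', x * y = y * x) (hR1 : R ⊓ G₁ = ⊥)
    (hN1 : N' ≤ G₁) (g : Γ) (hg : g ∈ G₁) : φ g = θ g := by
  by_cases hgN : g ∈ N'
  · exact h.on g hgN
  · rw [h.th.1 g hgN]
    apply h.ph.1
    intro hg2
    obtain ⟨x, hx, y, hy, rfl⟩ := (RYC_mem R N' hc g).1 hg2
    have hx1 : x ∈ R ⊓ G₁ := ⟨hx, by
      have := mul_mem hg (inv_mem (hN1 hy))
      rwa [mul_inv_cancel_right] at this⟩
    rw [hR1, Subgroup.mem_bot] at hx1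
    subst hx1
    rw [one_mul] at hgN
    exact hgN hy

theorem RYC_omega {Γ : Type} [Group Γ] (G₁ : Subgroup Γ) (hG₁ : G₁.Normal) (θ φ : Γ → ℂ)
    (h : ∀ g ∈ G₁, φ g = θ g) (g : Γ) (hg : g ∈ G₁) : omega φ g = omega θ g := by
  unfold omega
  rw [h 1 (one_mem _)]
  congr 1
  refine finsum_mem_congr rfl fun x hx => h x ?_
  have hx' : IsConj g x := hx
  rw [isConj_iff] at hx'
  obtain ⟨c, rfl⟩ := hx'
  exact hG₁.conj_mem g hg c

theorem RYC_cov {Γ : Type} [Group Γ] (M : Ideal (integralClosure ℤ ℂ)) (G₁ : Subgroup Γ)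
    (hG₁ : G₁.Normal) (τ θ φ : Γ → ℂ) (h : ∀ g ∈ G₁, φ g = θ g) :
    Cov M G₁ τ φ ↔ Cov M G₁ τ θ := by
  unfold Cov
  refine forall₂_congr fun g hg => ?_
  rw [RYC_omega G₁ hG₁ θ φ h g hg]

/-- Defects of `φ` and `θ`. -/
theorem RYC_def {Γ : Type} [Group Γ] [Finite Γ] (p : ℕ) [Fact p.Prime] (R N' : Subgroup Γ)
    (θ φ : Γ → ℂ) (h : φ 1 = θ 1) (hcard : Nat.card (R ⊔ N' : Subgroup Γ) = Nat.card R * Nat.card N')
    (D : ℤ) : Defect p (R ⊔ N') φ D ↔ Defect p N' θ (D - padicValNat p (Nat.card R)) := by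
  unfold Defect
  rw [h, hcard, padicValNat.mul Nat.card_pos.ne' Nat.card_pos.ne']
  refine exists_congr fun n => and_congr_right fun _ => ?_
  push_cast
  constructor <;> intro h1 <;> linarith

/-- Invariance of the product character. -/
theorem RYC_inv1 (hIF : IF_stmt) (hRDP : RDP_stmt) {Γ : Type} [Group Γ] [Finite Γ]
    (R N' Nn : Subgroup Γ) (hRab : ∀ x ∈ R, ∀ y ∈ R, x * y = y * x)
    (hc : ∀ x ∈ R, ∀ y ∈ N', x * y = y * x) (hd : R ⊓ N' = ⊥) (hNR : Nn ≤ nz R) (hNN : Nn ≤ nz N')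
    (l : R → ℂˣ) (θ φ : Γ → ℂ) (h : RYC_prod R N' l θ φ) :
    (∀ n ∈ Nn, funMap (MulAut.conj n) φ = φ) ↔
      (∀ n ∈ Nn, ∀ x y : R, (y : Γ) = n * x * n⁻¹ → l y = l x) ∧
      (∀ n ∈ Nn, funMap (MulAut.conj n) θ = θ) := by
  have key : ∀ n ∈ Nn, (∀ x ∈ R, n⁻¹ * x * n ∈ R) ∧ (∀ x ∈ N', n⁻¹ * x * n ∈ N') := by
    intro n hn
    refine ⟨fun x hx => ?_, fun x hx => ?_⟩
    · have h1 := (Subgroup.mem_normalizer_iff.1 (inv_mem (hNR hn)) x).1 hx
      rwa [inv_inv] at h1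
    · have h1 := (Subgroup.mem_normalizer_iff.1 (inv_mem (hNN hn)) x).1 hx
      rwa [inv_inv] at h1
  constructor
  · intro hinv
    have main : ∀ n (hn : n ∈ Nn), (l = fun x : R => l ⟨n⁻¹ * x * n, (key n hn).1 x x.2⟩) ∧
        θ = funMap (MulAut.conj n) θ := by
      intro n hn
      obtain ⟨-, -, h3⟩ := hRDP Γ R N' hRab hc hd
      refine h3 l (fun x : R => l ⟨n⁻¹ * x * n, (key n hn).1 x x.2⟩) h.lm ?_ θ h.th
        (funMap (MulAut.conj n) θ) ?_ ?_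
      · intro x y
        rw [← h.lm]
        congr 1
        apply Subtype.ext
        simp [mul_assoc]
      · have h4 := ((hIF Γ N').2 θ h.th).2.2 (MulAut.conj n)
        have h5 : N'.map (MulAut.conj n).toMonoidHom = N' := by
          ext z
          rw [Subgroup.mem_map]
          constructor
          · rintro ⟨w, hw, rfl⟩
            have := (Subgroup.mem_normalizer_iff.1 (hNN hn) w).1 hw
            simpa using this
          · intro hz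
            refine ⟨n⁻¹ * z * n, (key n hn).2 z hz, ?_⟩
            simp [mul_assoc]
        rwa [h5] at h4
      · intro x y hy
        have h6 := congrFun (hinv n hn) ((x : Γ) * y)
        rw [RYC_funMap] at h6
        rw [RYC_funMap, ← h.eq x y hy, ← h6]
        have h7 : n⁻¹ * ((x : Γ) * y) * n = ((⟨n⁻¹ * x * n, (key n hn).1 x x.2⟩ : R) : Γ) *
            (n⁻¹ * y * n) := by
          simp [mul_assoc]
        rw [h7, h.eq _ _ ((key n hn).2 y hy)]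
    refine ⟨fun n hn x y hxy => ?_, fun n hn => (main n hn).2.symm⟩
    have h1 := congrFun (main n hn).1 y
    rw [h1]
    congr 1
    apply Subtype.ext
    simp [hxy, mul_assoc]
  · rintro ⟨h1, h2⟩ n hn
    funext g
    rw [RYC_funMap]
    by_cases hg : g ∈ R ⊔ N'
    · obtain ⟨x, hx, y, hy, rfl⟩ := (RYC_mem R N' hc g).1 hg
      have h7 : n⁻¹ * (x * y) * n = ((⟨n⁻¹ * x * n, (key n hn).1 x hx⟩ : R) : Γ) *
          (n⁻¹ * y * n) := by
        simp [mul_assoc]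
      rw [h7, h.eq _ _ ((key n hn).2 y hy)]
      have h8 := h.eq ⟨x, hx⟩ y hy
      change φ (x * y) = _ at h8
      rw [h8]
      have h9 := congrFun (h2 n hn) y
      rw [RYC_funMap] at h9
      rw [h9]
      have h10 := h1 n hn ⟨n⁻¹ * x * n, (key n hn).1 x hx⟩ ⟨x, hx⟩ (by simp [mul_assoc])
      rw [h10]
    · rw [h.ph.1 g hg]
      apply h.ph.1
      intro h3
      apply hg
      obtain ⟨x, hx, y, hy, h4⟩ := (RYC_mem R N' hc _).1 h3
      rw [RYC_mem R N' hc]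
      refine ⟨n * x * n⁻¹, (Subgroup.mem_normalizer_iff.1 (hNR hn) x).1 hx, n * y * n⁻¹,
        (Subgroup.mem_normalizer_iff.1 (hNN hn) y).1 hy, ?_⟩
      have h5 : n * x * n⁻¹ * (n * y * n⁻¹) = n * (x * y) * n⁻¹ := by
        simp [mul_assoc]
      rw [h5, h4]
      simp [mul_assoc]

/-- Invariance of the linear character. -/
theorem RYC_inv2 {Γ : Type} [Group Γ] (G₂ R K Nn : Subgroup Γ) [G₂.Normal]
    (hNR : Nn ≤ nz R) (hnz : nz R ⊓ G₂ = R ⊔ K) (hRab : ∀ x ∈ R, ∀ y ∈ R, x * y = y * x)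
    (hc : ∀ x ∈ R, ∀ y ∈ K, x * y = y * x) (htop : Nn ⊔ G₂ = ⊤) (l : R → ℂˣ) :
    (∀ n ∈ Nn, ∀ x y : R, (y : Γ) = n * x * n⁻¹ → l y = l x) ↔
      ∀ m ∈ nz R, ∀ x y : R, (y : Γ) = m * x * m⁻¹ → l y = l x := by
  constructor
  · intro h m hm x y hxy
    have h1 : m ∈ Nn ⊔ G₂ := by rw [htop]; exact Subgroup.mem_top m
    rw [Subgroup.mem_sup_of_normal_right] at h1
    obtain ⟨n, hn, g, hg, rfl⟩ := h1
    have h2 : g ∈ nz R ⊓ G₂ := ⟨by
      have := mul_mem (inv_mem (hNR hn)) hm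
      rwa [inv_mul_cancel_left] at this, hg⟩
    rw [hnz, RYC_mem R K hc] at h2
    obtain ⟨r, hr, k, hk, rfl⟩ := h2
    refine h n hn x y ?_
    rw [hxy]
    have h3 : r * k * x * (r * k)⁻¹ = x := by
      have e1 : k * (x : Γ) = x * k := (hc x x.2 k hk).symm
      have e2 : r * (x : Γ) = x * r := hRab r hr x x.2
      rw [mul_inv_eq_iff_eq_mul]
      calc r * k * x = r * (k * x) := mul_assoc _ _ _
        _ = r * (x * k) := by rw [e1]
        _ = r * x * k := (mul_assoc _ _ _).symm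
        _ = x * r * k := by rw [e2]
        _ = x * (r * k) := mul_assoc _ _ _
    calc n * (r * k) * x * (n * (r * k))⁻¹ = n * (r * k * x * (r * k)⁻¹) * n⁻¹ := by
          simp only [mul_inv_rev, mul_assoc]
      _ = _ := by rw [h3]
  · intro h n hn
    exact h n (hNR hn)

/-- The stabiliser and the normaliser of the chain. -/
theorem RYC_stab (hB13 : B13_stmt) (hB14 : B14_stmt) {Γ : Type} [Group Γ] [Finite Γ] (p : ℕ)
    (G₂ R K : Subgroup Γ) [G₂.Normal] {E' : Type} [Group E'] [Finite E']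
    (Y : Extension K E' (Γ ⧸ G₂)) (π : nz R →* E')
    (hπa : ∀ (m : nz R) (k : K), ((Y.act (π m) k : K) : Γ) = m * k * (m : Γ)⁻¹)
    (C : Finset (Subgroup K)) (hC : IsChain (· ≤ ·) (C : Set (Subgroup K))) (θ : K → ℂ)
    (m : nz R) : π m ∈ Y.stab C θ ↔ (m : Γ) ∈ nrm (cmap K.subtype C) ∧
      funMap (MulAut.conj (m : Γ)) (ext0 K.subtype θ) = ext0 K.subtype θ := by
  have h13 := hB13 K Γ p K.subtype K.subtype_injective (nrm C)
  have h14 := hB14 K Γ K.subtype K.subtype_injective C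
  have h1 := h14.2.2 (Y.act (π m)) m (fun k => hπa m k) hC
  have h2 := h13.2.2.2.2.2 θ (Y.act (π m)) m (fun k => hπa m k)
  rw [h1, h2]
  refine and_congr_right fun _ => ⟨fun h => by rw [h], fun h => h13.2.2.2.1 _ _ h⟩

/-- The condition on the stabiliser. -/
theorem RYC_inv3 (hB13 : B13_stmt) (hB14 : B14_stmt) {Γ : Type} [Group Γ] [Finite Γ] (p : ℕ)
    (G₂ R K : Subgroup Γ) [G₂.Normal] {E' : Type} [Group E'] [Finite E']
    (Y : Extension K E' (Γ ⧸ G₂)) (π : nz R →* E') (hπs : Function.Surjective π)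
    (hπp : ∀ m : nz R, Y.proj (π m) = QuotientGroup.mk' G₂ (m : Γ))
    (hπa : ∀ (m : nz R) (k : K), ((Y.act (π m) k : K) : Γ) = m * k * (m : Γ)⁻¹)
    (C : Finset (Subgroup K)) (hC : IsChain (· ≤ ·) (C : Set (Subgroup K))) (θ : K → ℂ)
    (hG2 : ∀ x ∈ (nz R ⊓ nrm (cmap K.subtype C)) ⊓ G₂,
      funMap (MulAut.conj x) (ext0 K.subtype θ) = ext0 K.subtype θ) :
    (Y.stab C θ).map Y.proj = ⊤ ↔ (nz R ⊓ nrm (cmap K.subtype C)) ⊔ G₂ = ⊤ ∧
      ∀ n ∈ nz R ⊓ nrm (cmap K.subtype C),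
        funMap (MulAut.conj n) (ext0 K.subtype θ) = ext0 K.subtype θ := by
  have hst := RYC_stab hB13 hB14 p G₂ R K Y π hπa C hC θ
  constructor
  · intro h
    have key : ∀ a : Γ, ∃ m : nz R, (m : Γ) ∈ nrm (cmap K.subtype C) ∧
        funMap (MulAut.conj (m : Γ)) (ext0 K.subtype θ) = ext0 K.subtype θ ∧
        (m : Γ)⁻¹ * a ∈ G₂ := by
      intro a
      have h1 : QuotientGroup.mk' G₂ a ∈ (Y.stab C θ).map Y.proj := by
        rw [h]; exact Subgroup.mem_top _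
      obtain ⟨s, hs, hs2⟩ := Subgroup.mem_map.1 h1
      obtain ⟨m, rfl⟩ := hπs s
      obtain ⟨h3, h4⟩ := (hst m).1 hs
      refine ⟨m, h3, h4, ?_⟩
      rw [hπp m] at hs2
      exact QuotientGroup.eq.1 hs2
    refine ⟨?_, ?_⟩
    · rw [eq_top_iff]
      intro a _
      obtain ⟨m, h1, -, h3⟩ := key a
      have h4 : (m : Γ) * ((m : Γ)⁻¹ * a) ∈ (nz R ⊓ nrm (cmap K.subtype C)) ⊔ G₂ :=
        mul_mem (Subgroup.mem_sup_left ⟨m.2, h1⟩) (Subgroup.mem_sup_right h3)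
      rwa [mul_inv_cancel_left] at h4
    · intro n hn
      obtain ⟨m, h1, h2, h3⟩ := key n
      have h4 : (m : Γ)⁻¹ * n ∈ (nz R ⊓ nrm (cmap K.subtype C)) ⊓ G₂ :=
        Subgroup.mem_inf.2
          ⟨mul_mem (inv_mem (show (m : Γ) ∈ nz R ⊓ nrm (cmap K.subtype C) from ⟨m.2, h1⟩)) hn, h3⟩
      have h5 := hG2 _ h4
      have h6 : funMap (MulAut.conj n) (ext0 K.subtype θ) = funMap (MulAut.conj (m : Γ))
          (funMap (MulAut.conj ((m : Γ)⁻¹ * n)) (ext0 K.subtype θ)) := by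
        funext g
        simp only [RYC_funMap]
        congr 1
        simp [mul_assoc]
      rw [h6, h5, h2]
  · rintro ⟨htop, hinv⟩
    rw [eq_top_iff]
    intro a _
    obtain ⟨g, rfl⟩ := QuotientGroup.mk'_surjective G₂ a
    have h1 : g ∈ (nz R ⊓ nrm (cmap K.subtype C)) ⊔ G₂ := by rw [htop]; exact Subgroup.mem_top g
    rw [Subgroup.mem_sup_of_normal_right] at h1
    obtain ⟨n, hn, z, hz, rfl⟩ := h1
    refine Subgroup.mem_map.2 ⟨π ⟨n, hn.1⟩, (hst _).2 ⟨hn.2, hinv n hn⟩, ?_⟩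
    rw [hπp, map_mul]
    have h2 : QuotientGroup.mk' G₂ z = 1 := (QuotientGroup.eq_one_iff z).2 hz
    rw [h2, mul_one]

theorem RYC_main (hB13 : B13_stmt) (hB14 : B14_stmt) (hIF : IF_stmt) (hRDP : RDP_stmt)
    {Γ : Type} [Group Γ] [Finite Γ] (p : ℕ) [Fact p.Prime] (M : Ideal (integralClosure ℤ ℂ))
    (G₁ G₂ R K : Subgroup Γ) [G₂.Normal] (hG₁ : G₁.Normal) (hR1 : R ⊓ G₁ = ⊥) (hKG : K ≤ G₁)
    (hKR : K ≤ cz R) (hnz : nz R ⊓ G₂ = R ⊔ K) (hRab : ∀ x ∈ R, ∀ y ∈ R, x * y = y * x)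
    {E' : Type} [Group E'] [Finite E'] (Y : Extension K E' (Γ ⧸ G₂))
    (π : nz R →* E') (hπs : Function.Surjective π)
    (hπp : ∀ m : nz R, Y.proj (π m) = QuotientGroup.mk' G₂ (m : Γ))
    (hπa : ∀ (m : nz R) (k : K), ((Y.act (π m) k : K) : Γ) = m * k * (m : Γ)⁻¹)
    (τ : Γ → ℂ) (D : ℤ) (C : Finset (Subgroup K))
    (hC : IsChain (· ≤ ·) (C : Set (Subgroup K))) (hCn : C.Nonempty) :
    hf p M G₁ G₂ τ D (nz R ⊓ nrm (cmap K.subtype C)) =
      (Nat.card R : ℤ) * Nat.card {l : R → ℂˣ // (∀ x y, l (x * y) = l x * l y) ∧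
        ∀ m ∈ nz R, ∀ x y : R, (y : Γ) = m * x * m⁻¹ → l y = l x} *
      ((Nat.card (nrm C) : ℤ) * Nat.card {θ : K → ℂ // θ ∈ IrrOn (nrm C) ∧
        Defect p (nrm C) θ (D - padicValNat p (Nat.card R)) ∧
        Cov M G₁ τ (ext0 K.subtype θ) ∧ (Y.stab C θ).map Y.proj = ⊤}) := by
  classical
  have h13 := hB13 K Γ p K.subtype K.subtype_injective (nrm C)
  have h14 := hB14 K Γ K.subtype K.subtype_injective C
  have hcK : ∀ x ∈ R, ∀ y ∈ K, x * y = y * x := fun x hx y hy =>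
    Subgroup.mem_centralizer_iff.1 (hKR hy) x hx
  have hN' : (nrm C).map K.subtype = K ⊓ nrm (cmap K.subtype C) := by
    rw [h14.2.1 hCn, Subgroup.range_subtype]
  set Nn : Subgroup Γ := nz R ⊓ nrm (cmap K.subtype C) with hNn
  set N' : Subgroup Γ := (nrm C).map K.subtype with hN'd
  have hN'K : N' ≤ K := by rw [hN']; exact inf_le_left
  have hc : ∀ x ∈ R, ∀ y ∈ N', x * y = y * x := fun x hx y hy => hcK x hx y (hN'K hy)
  have hd : R ⊓ N' = ⊥ := by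
    rw [eq_bot_iff, ← hR1]
    exact inf_le_inf_left R (hN'K.trans hKG)
  -- `R` normalises the chain
  have hRn : R ≤ nrm (cmap K.subtype C) := by
    intro r hr
    unfold nrm
    rw [Subgroup.mem_iInf]
    intro P
    rw [Subgroup.mem_iInf]
    intro hP
    unfold cmap at hP
    rw [Finset.mem_image] at hP
    obtain ⟨Q, -, rfl⟩ := hP
    rw [Subgroup.mem_normalizer_iff]
    have key : ∀ g ∈ Q.map K.subtype, r * g * r⁻¹ = g := by
      intro g hg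
      obtain ⟨q, -, rfl⟩ := Subgroup.mem_map.1 hg
      rw [mul_inv_eq_iff_eq_mul]
      exact hcK r hr _ q.2
    intro g
    constructor
    · intro hg
      have := key g hg
      change r * g * r⁻¹ ∈ Q.map K.subtype
      rw [this]
      exact hg
    · intro hg
      have h1 := key _ hg
      have h2 : r * g * r⁻¹ = g := by
        have h3 : r * (r * g * r⁻¹) = r * g * r⁻¹ * r := by
          rw [mul_inv_eq_iff_eq_mul] at h1
          exact h1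
        rw [inv_mul_cancel_right] at h3
        exact mul_left_cancel h3
      rw [h2] at hg
      exact hg
  have hRG2 : R ≤ G₂ := by
    have h1 : R ≤ nz R ⊓ G₂ := by rw [hnz]; exact le_sup_left
    exact h1.trans inf_le_right
  have hKG2 : K ≤ nz R ⊓ G₂ := by rw [hnz]; exact le_sup_right
  have hNG : Nn ⊓ G₂ = R ⊔ N' := by
    apply le_antisymm
    · intro x hx
      obtain ⟨⟨hx1, hx2⟩, hx3⟩ := hx
      have h1 : x ∈ nz R ⊓ G₂ := ⟨hx1, hx3⟩
      rw [hnz, RYC_mem R K hcK] at h1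
      obtain ⟨r, hr, k, hk, rfl⟩ := h1
      refine mul_mem (Subgroup.mem_sup_left hr) (Subgroup.mem_sup_right ?_)
      rw [hN']
      refine ⟨hk, ?_⟩
      have h2 := mul_mem (inv_mem (hRn hr)) hx2
      rwa [inv_mul_cancel_left] at h2
    · refine sup_le (le_inf (le_inf Subgroup.le_normalizer hRn) hRG2) ?_
      rw [hN']
      exact le_inf (le_inf ((inf_le_left.trans hKG2).trans inf_le_left) inf_le_right)
        ((inf_le_left.trans hKG2).trans inf_le_right)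
  have hcard : Nat.card (R ⊔ N' : Subgroup Γ) = Nat.card R * Nat.card N' :=
    RYC_card R N' hc hd
  have hcard2 : Nat.card N' = Nat.card (nrm C) :=
    (Nat.card_congr ((nrm C).equivMapOfInjective K.subtype K.subtype_injective).toEquiv).symm
  have hNR : Nn ≤ nz R := inf_le_left
  have hnN : ∀ n ∈ Nn, ∀ y ∈ N', n * y * n⁻¹ ∈ N' := by
    intro n hn y hy
    rw [hN'] at hy ⊢
    refine Subgroup.mem_inf.2 ⟨?_, mul_mem (mul_mem hn.2 hy.2) (inv_mem hn.2)⟩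
    have h1 := hπa ⟨n, hn.1⟩ ⟨y, hy.1⟩
    change _ = n * y * n⁻¹ at h1
    rw [← h1]
    exact Subtype.coe_prop _
  have hNN : Nn ≤ nz N' := by
    intro n hn
    rw [Subgroup.mem_normalizer_iff]
    intro y
    refine ⟨fun hy => hnN n hn y hy, fun hy => ?_⟩
    have h1 := hnN n⁻¹ (inv_mem hn) _ hy
    have h2 : n⁻¹ * (n * y * n⁻¹) * n⁻¹⁻¹ = y := by simp [mul_assoc]
    rwa [h2] at h1
  obtain ⟨hR1', hR2', hR3'⟩ := hRDP Γ R N' hRab hc hd
  -- the elements of `Nn ⊓ G₂` fix `ext0 θ`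
  have hfix : ∀ θ ∈ IrrOn (nrm C), ∀ x ∈ Nn ⊓ G₂,
      funMap (MulAut.conj x) (ext0 K.subtype θ) = ext0 K.subtype θ := by
    intro θ hθ x hx
    have hθ' : ext0 K.subtype θ ∈ IrrOn N' := (h13.2.1 θ).1 hθ
    rw [hNG, RYC_mem R N' hc] at hx
    obtain ⟨r, hr, y, hy, rfl⟩ := hx
    have hcl := ((hIF Γ N').2 _ hθ').2.1
    funext g
    rw [RYC_funMap]
    by_cases hg : g ∈ N'
    · have e1 : (r * y)⁻¹ * g * (r * y) = y⁻¹ * g * y := by
        have e2 : r⁻¹ * g * r = g := by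
          have := hc r hr g hg
          rw [mul_assoc, ← this, inv_mul_cancel_left]
        calc (r * y)⁻¹ * g * (r * y) = y⁻¹ * (r⁻¹ * g * r) * y := by
              simp only [mul_inv_rev, mul_assoc]
          _ = _ := by rw [e2]
      rw [e1]
      have := hcl y⁻¹ (inv_mem hy) g
      rwa [inv_inv] at this
    · rw [hθ'.1 g hg]
      apply hθ'.1
      intro h1
      apply hg
      have hxn : r * y ∈ nz N' := by
        apply hNN
        have h5 : r * y ∈ Nn ⊓ G₂ := by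
          rw [hNG]
          exact mul_mem (Subgroup.mem_sup_left hr) (Subgroup.mem_sup_right hy)
        exact h5.1
      have h2 := (Subgroup.mem_normalizer_iff.1 hxn _).1 h1
      have h3 : r * y * ((r * y)⁻¹ * g * (r * y)) * (r * y)⁻¹ = g := by
        simp only [mul_assoc, mul_inv_cancel, mul_one, mul_inv_cancel_left]
      rwa [h3] at h2
  -- characterisation
  have hchar : Nn ⊔ G₂ = ⊤ → ∀ (l : R → ℂˣ) (θ : K → ℂ) (φ : Γ → ℂ), θ ∈ IrrOn (nrm C) →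
      RYC_prod R N' l (ext0 K.subtype θ) φ →
      ((φ ∈ IrrOn (Nn ⊓ G₂) ∧ (∀ n ∈ Nn, funMap (MulAut.conj n) φ = φ) ∧
        Defect p (Nn ⊓ G₂) φ D ∧ Cov M G₁ τ φ) ↔
      ((∀ m ∈ nz R, ∀ x y : R, (y : Γ) = m * x * m⁻¹ → l y = l x) ∧
        (Defect p (nrm C) θ (D - padicValNat p (Nat.card R)) ∧
        Cov M G₁ τ (ext0 K.subtype θ) ∧ (Y.stab C θ).map Y.proj = ⊤))) := by
    intro htop l θ φ hθ hp
    rw [RYC_inv3 hB13 hB14 p G₂ R K Y π hπs hπp hπa C hC θ (hfix θ hθ),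
      RYC_inv1 hIF hRDP R N' Nn hRab hc hd hNR hNN l _ φ hp,
      RYC_inv2 G₂ R K Nn hNR hnz hRab hcK htop l,
      RYC_cov M G₁ hG₁ τ _ φ (hp.on' hc hR1 (hN'K.trans hKG)), hNG,
      RYC_def p R N' _ φ (hp.on 1 (one_mem _)) hcard, h13.2.2.2.2.1 θ]
    constructor
    · rintro ⟨-, ⟨h1, h2⟩, h3, h4⟩
      exact ⟨h1, h3, h4, htop, h2⟩
    · rintro ⟨h1, h3, h4, -, h2⟩
      exact ⟨hp.ph, ⟨h1, h2⟩, h3, h4⟩
  unfold hf
  by_cases htop : Nn ⊔ G₂ = ⊤
  · rw [if_pos htop]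
    have hcount : Nat.card {φ : Γ → ℂ // φ ∈ IrrOn (Nn ⊓ G₂) ∧
        (∀ n ∈ Nn, funMap (MulAut.conj n) φ = φ) ∧ Defect p (Nn ⊓ G₂) φ D ∧ Cov M G₁ τ φ} =
        Nat.card {l : R → ℂˣ // (∀ x y, l (x * y) = l x * l y) ∧
          ∀ m ∈ nz R, ∀ x y : R, (y : Γ) = m * x * m⁻¹ → l y = l x} *
        Nat.card {θ : K → ℂ // θ ∈ IrrOn (nrm C) ∧
          Defect p (nrm C) θ (D - padicValNat p (Nat.card R)) ∧
          Cov M G₁ τ (ext0 K.subtype θ) ∧ (Y.stab C θ).map Y.proj = ⊤} := by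
      rw [← Nat.card_prod]
      symm
      have hex : ∀ z : {l : R → ℂˣ // (∀ x y, l (x * y) = l x * l y) ∧
          ∀ m ∈ nz R, ∀ x y : R, (y : Γ) = m * x * m⁻¹ → l y = l x} ×
          {θ : K → ℂ // θ ∈ IrrOn (nrm C) ∧
          Defect p (nrm C) θ (D - padicValNat p (Nat.card R)) ∧
          Cov M G₁ τ (ext0 K.subtype θ) ∧ (Y.stab C θ).map Y.proj = ⊤},
          ∃ φ : Γ → ℂ, RYC_prod R N' z.1.1 (ext0 K.subtype z.2.1) φ := by
        rintro ⟨⟨l, hl1, hl2⟩, ⟨θ, hθ, hθ2⟩⟩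
        obtain ⟨φ, h1, h2⟩ := hR1' l hl1 _ ((h13.2.1 θ).1 hθ)
        exact ⟨φ, hl1, (h13.2.1 θ).1 hθ, h1, h2⟩
      choose F hF using hex
      refine Nat.card_eq_of_bijective (fun z => ⟨F z, ?_⟩) ⟨?_, ?_⟩
      · exact (hchar htop _ _ _ z.2.2.1 (hF z)).2 ⟨z.1.2.2, z.2.2.2⟩
      · intro z z' hzz
        have h1 : F z = F z' := congrArg Subtype.val hzz
        have h2 := hR3' z.1.1 z'.1.1 z.1.2.1 z'.1.2.1 _ (hF z).th _ (hF z').th (by
          intro x y hy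
          rw [← (hF z).eq x y hy, ← (hF z').eq x y hy, h1])
        refine Prod.ext (Subtype.ext h2.1) (Subtype.ext (h13.2.2.2.1 _ _ h2.2))
      · rintro ⟨φ, hφ⟩
        have hφ1 : φ ∈ IrrOn (R ⊔ N') := by rw [← hNG]; exact hφ.1
        obtain ⟨l, hl, θ₀, hθ₀, h1⟩ := hR2' φ hφ1
        obtain ⟨θ, rfl⟩ := h13.2.2.1 θ₀ hθ₀
        have hθ : θ ∈ IrrOn (nrm C) := (h13.2.1 θ).2 hθ₀
        have hp : RYC_prod R N' l (ext0 K.subtype θ) φ := ⟨hl, hθ₀, hφ1, h1⟩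
        obtain ⟨h2, h3⟩ := (hchar htop l θ φ hθ hp).1 hφ
        refine ⟨(⟨l, hl, h2⟩, ⟨θ, hθ, h3⟩), Subtype.ext ?_⟩
        change F (⟨l, hl, h2⟩, ⟨θ, hθ, h3⟩) = φ
        have h4 := hF (⟨l, hl, h2⟩, ⟨θ, hθ, h3⟩)
        funext g
        by_cases hg : g ∈ R ⊔ N'
        · obtain ⟨x, hx, y, hy, rfl⟩ := (RYC_mem R N' hc g).1 hg
          exact (h4.eq ⟨x, hx⟩ y hy).trans (hp.eq ⟨x, hx⟩ y hy).symm
        · rw [h4.ph.1 g hg, hp.ph.1 g hg]
    rw [hcount, hNG, hcard, hcard2]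
    push_cast
    ring
  · rw [if_neg htop]
    have h0 : Nat.card {θ : K → ℂ // θ ∈ IrrOn (nrm C) ∧
        Defect p (nrm C) θ (D - padicValNat p (Nat.card R)) ∧
        Cov M G₁ τ (ext0 K.subtype θ) ∧ (Y.stab C θ).map Y.proj = ⊤} = 0 := by
      rw [Nat.card_eq_zero]
      left
      constructor
      rintro ⟨θ, hθ, -, -, h3⟩
      exact htop ((RYC_inv3 hB13 hB14 p G₂ R K Y π hπs hπp hπa C hC θ (hfix θ hθ)).1 h3).1
    rw [h0]
    simp

theorem RYC (hB13 : B13_stmt) (hB14 : B14_stmt) (hIF : IF_stmt) (hRDP : RDP_stmt) :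
    RYC_stmt := by
  intro Γ _ _ p _ M G₁ G₂ R _ hG₁ h12 hR2 hR1 hnz hRab E' _ _ Y π hπs hπk hπi hπp hπa τ D C hC hCn
  exact RYC_main hB13 hB14 hIF hRDP p M G₁ G₂ R (G₁ ⊓ cz R) hG₁ hR1 inf_le_left inf_le_right
    hnz hRab Y π hπs hπp hπa τ D C hC hCn

end Pool.Agent.DR
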